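import Mathlib

/-!
# Nearest-lower-neighbour augmentations of circle packings need not be sphere packable

Let `G` be the join of an edge `xy` with ten independent vertices `v_2, …, v_11`. It is planar and
has a circle packing. Let the height function be `0` at `v_2` and `1` elsewhere. Then `v_2` is the
only lower vertex of each other vertex, so that the augmented graph `H` joins `v_2` to all other
vertices. In a sphere packing of `H` in space the balls of `x`, `y`, `v_2` touch each other and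
the nine disjoint balls of `v_3, …, v_11` touch all three of them. There are at most six such balls.
-/

set_option autoImplicit false

open Metric

namespace Pool.Agent.Results.MP_ffcab7_co.NotPackable

/-- The Euclidean plane. -/
abbrev E2 : Type := EuclideanSpace ℝ (Fin 2)

/-- Euclidean three-space. -/
abbrev E3 : Type := EuclideanSpace ℝ (Fin 3)

/-- The closed balls with centres `c v` and radii `r v > 0` in the space `E` have pairwise disjoint
interiors, and two of them are tangent (have a common point) if and only if their vertices are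
adjacent in `G`. -/
structure IsBallPacking {V : Type} (G : SimpleGraph V) {E : Type} [MetricSpace E]
    (c : V → E) (r : V → ℝ) : Prop where
  pos : ∀ v, 0 < r v
  disjoint : ∀ u v, u ≠ v →
    Disjoint (interior (closedBall (c u) (r u))) (interior (closedBall (c v) (r v)))
  tangent : ∀ u v, u ≠ v →
    (G.Adj u v ↔ (closedBall (c u) (r u) ∩ closedBall (c v) (r v)).Nonempty)

/-- `G` has a straight-line drawing in the plane without crossings: the vertices are different
points, an edge contains no vertex besides its ends, and two different edges have no common point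
besides a common end. -/
def IsPlanar {V : Type} (G : SimpleGraph V) : Prop :=
  ∃ p : V → E2, Function.Injective p ∧
    (∀ u v, G.Adj u v → ∀ w, p w ∈ segment ℝ (p u) (p v) → w = u ∨ w = v) ∧
    ∀ u v x y, G.Adj u v → G.Adj x y → s(u, v) ≠ s(x, y) →
      ∀ q, q ∈ segment ℝ (p u) (p v) → q ∈ segment ℝ (p x) (p y) →
        ∃ w, (w = u ∨ w = v) ∧ (w = x ∨ w = y) ∧ q = p w

/-- A height function. -/
def IsHeight {V : Type} (G : SimpleGraph V) (f : V → ℤ) : Prop :=
  ∀ u v, G.Adj u v → |f u - f v| ≤ 1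

/-- `g` chooses for each vertex `v` that has a lower vertex (a vertex `u` with `f u < f v`) a lower
vertex `g v` whose centre is nearest to the centre of `v`. -/
def IsNearestChoice {V : Type} (f : V → ℤ) (c : V → E2) (g : V → V) : Prop :=
  ∀ v, (∃ u, f u < f v) → f (g v) < f v ∧ ∀ u, f u < f v → dist (c (g v)) (c v) ≤ dist (c u) (c v)

/-- The augmented graph: `G` together with the edges from `v` to `g v` for all `v` that have a lower
vertex. -/
def augment {V : Type} (G : SimpleGraph V) (f : V → ℤ) (g : V → V) : SimpleGraph V :=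
  G ⊔ SimpleGraph.fromRel (fun v w => (∃ u, f u < f v) ∧ w = g v)

/-- Sphere packable in `ℝ³`. -/
def SpherePackable {V : Type} (G : SimpleGraph V) : Prop :=
  ∃ (c : V → E3) (r : V → ℝ), IsBallPacking G c r

/-! ### At most eight balls touch three mutually touching balls -/

lemma leib (c x y z a b d : ℝ) (h : a + b + d ≠ 0) :
    (c - (a * x + b * y + d * z) / (a + b + d)) ^ 2 =
      (a * (c - x) ^ 2 + b * (c - y) ^ 2 + d * (c - z) ^ 2) / (a + b + d) -
      (a * b * (x - y) ^ 2 + b * d * (y - z) ^ 2 + a * d * (x - z) ^ 2) / (a + b + d) ^ 2 := by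
  field_simp
  ring

/-- The weighted centroid of three points. -/
noncomputable def cen (x y z : E3) (a b d : ℝ) : E3 :=
  WithLp.toLp 2 (fun k => (a * x k + b * y k + d * z k) / (a + b + d))

lemma leibniz (c x y z : E3) (a b d : ℝ) (h : a + b + d ≠ 0) :
    ∑ k, (c k - cen x y z a b d k) ^ 2 =
      (a * dist c x ^ 2 + b * dist c y ^ 2 + d * dist c z ^ 2) / (a + b + d) -
      (a * b * dist x y ^ 2 + b * d * dist y z ^ 2 + a * d * dist x z ^ 2) / (a + b + d) ^ 2 := by
  have e : ∀ u v : E3, dist u v ^ 2 = ∑ k, (u k - v k) ^ 2 := by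
    intro u v
    rw [EuclideanSpace.dist_eq, Real.sq_sqrt (Finset.sum_nonneg fun _ _ => sq_nonneg _)]
    exact Finset.sum_congr rfl fun k _ => by rw [Real.dist_eq, sq_abs]
  simp only [e, cen, leib _ _ _ _ _ _ _ h, Fin.sum_univ_three]
  field_simp
  ring

/-- The vector of `ℝ⁴` belonging to a ball. -/
noncomputable def vec (o : E3) (s : ℝ) (c : E3) (r : ℝ) : EuclideanSpace ℝ (Fin 4) :=
  WithLp.toLp 2 (Fin.cons (√3 * (s / r - 1)) (fun k => (c k - o k) / r))

lemma inner_vec (o : E3) (s : ℝ) (c c' : E3) (r r' : ℝ) (hr : r ≠ 0) (hr' : r' ≠ 0) :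
    inner ℝ (vec o s c r) (vec o s c' r') =
      3 * (s / r - 1) * (s / r' - 1) +
        (∑ k, (c k - o k) ^ 2 + ∑ k, (c' k - o k) ^ 2 - dist c c' ^ 2) / (2 * r * r') := by
  have e : dist c c' ^ 2 = ∑ k, (c k - c' k) ^ 2 := by
    rw [EuclideanSpace.dist_eq, Real.sq_sqrt (Finset.sum_nonneg fun _ _ => sq_nonneg _)]
    exact Finset.sum_congr rfl fun k _ => by rw [Real.dist_eq, sq_abs]
  have h3 : √3 * √3 = (3 : ℝ) := Real.mul_self_sqrt (by norm_num)
  rw [e]
  simp only [PiLp.inner_apply, vec, Fin.sum_univ_succ, Fin.cons_zero, Fin.cons_succ,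
    RCLike.inner_apply, conj_trivial, Finset.univ_unique, Fin.default_eq_zero,
    Finset.sum_singleton]
  have : √3 * (s / r' - 1) * (√3 * (s / r - 1)) = 3 * (s / r - 1) * (s / r' - 1) := by
    linear_combination (s / r' - 1) * (s / r - 1) * h3
  rw [this]
  field_simp
  ring



/-- The data of three mutually touching balls. -/
structure Triple (x y z : E3) (rx ry rz : ℝ) : Prop where
  px : 0 < rx
  py : 0 < ry
  pz : 0 < rz
  xy : dist x y = rx + ry
  yz : dist y z = ry + rz
  xz : dist x z = rx + rz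

lemma sum_touch {x y z : E3} {rx ry rz : ℝ} (h : Triple x y z rx ry rz) {c : E3} {r : ℝ}
    (hx : dist c x = r + rx) (hy : dist c y = r + ry) (hz : dist c z = r + rz) :
    ∑ k, (c k - cen x y z rx⁻¹ ry⁻¹ rz⁻¹ k) ^ 2 =
      r ^ 2 + 6 * r * (rx⁻¹ + ry⁻¹ + rz⁻¹)⁻¹ - 3 * (rx⁻¹ + ry⁻¹ + rz⁻¹)⁻¹ ^ 2 := by
  have h1 := h.px
  have h2 := h.py
  have h3 := h.pz
  have hS : 0 < rx⁻¹ + ry⁻¹ + rz⁻¹ := by positivity
  rw [leibniz _ _ _ _ _ _ _ hS.ne', hx, hy, hz, h.xy, h.yz, h.xz]
  field_simp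
  ring

lemma sum_self {x y z : E3} {rx ry rz : ℝ} (h : Triple x y z rx ry rz) :
    ∑ k, (x k - cen x y z rx⁻¹ ry⁻¹ rz⁻¹ k) ^ 2 =
      rx ^ 2 + 2 * rx * (rx⁻¹ + ry⁻¹ + rz⁻¹)⁻¹ - 3 * (rx⁻¹ + ry⁻¹ + rz⁻¹)⁻¹ ^ 2 := by
  have h1 := h.px
  have h2 := h.py
  have h3 := h.pz
  have hS : 0 < rx⁻¹ + ry⁻¹ + rz⁻¹ := by positivity
  rw [leibniz _ _ _ _ _ _ _ hS.ne', dist_self, h.xy, h.yz, h.xz]
  field_simp
  ring

/-- Two vectors in the plane of squared length 4 in the same of eight sectors have inner product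
at least 2. -/
lemma sector {a b a' b' : ℝ} (h : a * a + b * b = 4) (h' : a' * a' + b' * b' = 4)
    (h1 : 0 ≤ a ↔ 0 ≤ a') (h2 : 0 ≤ b ↔ 0 ≤ b') (h3 : |b| ≤ |a| ↔ |b'| ≤ |a'|) :
    2 ≤ a * a' + b * b' := by
  have ha : 0 ≤ a * a' := by
    by_cases hh : 0 ≤ a
    · exact mul_nonneg hh (h1.1 hh)
    · exact mul_nonneg_of_nonpos_of_nonpos (not_le.1 hh).le (not_le.1 (fun e => hh (h1.2 e))).le
  have hb : 0 ≤ b * b' := by
    by_cases hh : 0 ≤ b
    · exact mul_nonneg hh (h2.1 hh)
    · exact mul_nonneg_of_nonpos_of_nonpos (not_le.1 hh).le (not_le.1 (fun e => hh (h2.2 e))).le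
  by_cases hh : |b| ≤ |a|
  · have e1 : b ^ 2 ≤ a ^ 2 := sq_le_sq.2 hh
    have e2 : b' ^ 2 ≤ a' ^ 2 := sq_le_sq.2 (h3.1 hh)
    have k1 : 2 ≤ a ^ 2 := by nlinarith
    have k2 : 2 ≤ a' ^ 2 := by nlinarith
    have k3 : 4 ≤ (a * a') ^ 2 := by nlinarith
    nlinarith
  · have e1 : a ^ 2 ≤ b ^ 2 := sq_le_sq.2 (not_le.1 hh).le
    have e2 : a' ^ 2 ≤ b' ^ 2 := sq_le_sq.2 (not_le.1 (fun e => hh (h3.2 e))).le
    have k1 : 2 ≤ b ^ 2 := by nlinarith
    have k2 : 2 ≤ b' ^ 2 := by nlinarith
    have k3 : 4 ≤ (b * b') ^ 2 := by nlinarith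
    nlinarith

/-- Among nine vectors of squared length 4 in `ℝ⁴` that are orthogonal to two linearly independent
vectors there are two with inner product at least 2. -/
lemma nine (p q : EuclideanSpace ℝ (Fin 4)) (hp : inner ℝ p p = (4 : ℝ))
    (hq : inner ℝ q q = (4 : ℝ)) (hpq : inner ℝ p q = (2 : ℝ))
    (y : Fin 9 → EuclideanSpace ℝ (Fin 4)) (hy : ∀ i, inner ℝ (y i) (y i) = (4 : ℝ))
    (hyp : ∀ i, inner ℝ p (y i) = (0 : ℝ)) (hyq : ∀ i, inner ℝ q (y i) = (0 : ℝ)) :
    ∃ i j, i ≠ j ∧ (2 : ℝ) ≤ inner ℝ (y i) (y j) := by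
  classical
  have hqp : inner ℝ q p = (2 : ℝ) := by rw [real_inner_comm]; exact hpq
  have hli : LinearIndependent ℝ ![p, q] := by
    rw [LinearIndependent.pair_iff]
    intro s t hst
    have e1 : inner ℝ p (s • p + t • q) = (0 : ℝ) := by rw [hst, inner_zero_right]
    have e2 : inner ℝ q (s • p + t • q) = (0 : ℝ) := by rw [hst, inner_zero_right]
    rw [inner_add_right, inner_smul_right, inner_smul_right, hp, hpq] at e1
    rw [inner_add_right, inner_smul_right, inner_smul_right, hq, hqp] at e2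
    constructor <;> linarith
  set K : Submodule ℝ (EuclideanSpace ℝ (Fin 4)) := (Submodule.span ℝ (Set.range ![p, q]))ᗮ with hK
  have hfs : Module.finrank ℝ (Submodule.span ℝ (Set.range ![p, q])) = 2 := by
    rw [finrank_span_eq_card hli]; simp
  have hfK : Module.finrank ℝ K = 2 := by
    have : Module.finrank ℝ (Submodule.span ℝ (Set.range ![p, q])) + Module.finrank ℝ K =
        Module.finrank ℝ (EuclideanSpace ℝ (Fin 4)) :=
      Submodule.finrank_add_finrank_orthogonal (Submodule.span ℝ (Set.range ![p, q]))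
    rw [hfs, finrank_euclideanSpace_fin] at this
    omega
  have hmem : ∀ i, y i ∈ K := by
    intro i
    rw [hK, Submodule.mem_orthogonal]
    intro u hu
    induction hu using Submodule.span_induction with
    | mem u hu =>
      obtain ⟨k, rfl⟩ := hu
      fin_cases k
      · exact hyp i
      · exact hyq i
    | zero => simp
    | add u v _ _ hu hv => rw [inner_add_left, hu, hv, add_zero]
    | smul t u _ hu => rw [inner_smul_left, hu, mul_zero]
  let B : OrthonormalBasis (Fin 2) ℝ K := (stdOrthonormalBasis ℝ K).reindex (finCongr hfK)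
  let Y : Fin 9 → K := fun i => ⟨y i, hmem i⟩
  have hin : ∀ i j, inner ℝ (y i) (y j) =
      (inner ℝ (B 0) (Y i) : ℝ) * inner ℝ (B 0) (Y j) +
        (inner ℝ (B 1) (Y i) : ℝ) * inner ℝ (B 1) (Y j) := by
    intro i j
    have := OrthonormalBasis.sum_inner_mul_inner B (Y i) (Y j)
    rw [Fin.sum_univ_two, real_inner_comm (B 0) (Y i), real_inner_comm (B 1) (Y i)] at this
    rw [this]
    rfl
  let σ : Fin 9 → Bool × Bool × Bool := fun i =>
    (decide (0 ≤ (inner ℝ (B 0) (Y i) : ℝ)), decide (0 ≤ (inner ℝ (B 1) (Y i) : ℝ)),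
      decide (|(inner ℝ (B 1) (Y i) : ℝ)| ≤ |(inner ℝ (B 0) (Y i) : ℝ)|))
  obtain ⟨i, j, hij, hσ⟩ := Fintype.exists_ne_map_eq_of_card_lt σ (by decide)
  simp only [σ, Prod.mk.injEq, decide_eq_decide] at hσ
  refine ⟨i, j, hij, ?_⟩
  rw [hin]
  exact sector ((hin i i).symm.trans (hy i)) ((hin j j).symm.trans (hy j)) hσ.1 hσ.2.1 hσ.2.2

/-- There are no nine disjoint balls touching three mutually touching balls. -/
lemma no_nine {x y z : E3} {rx ry rz : ℝ} (h : Triple x y z rx ry rz) (c : Fin 9 → E3)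
    (r : Fin 9 → ℝ) (hr : ∀ i, 0 < r i) (hx : ∀ i, dist (c i) x = r i + rx)
    (hy : ∀ i, dist (c i) y = r i + ry) (hz : ∀ i, dist (c i) z = r i + rz)
    (hd : ∀ i j, i ≠ j → r i + r j < dist (c i) (c j)) : False := by
  have h1 := h.px
  have h2 := h.py
  have h3 := h.pz
  set s : ℝ := (rx⁻¹ + ry⁻¹ + rz⁻¹)⁻¹ with hs
  set o : E3 := cen x y z rx⁻¹ ry⁻¹ rz⁻¹ with ho
  have hyx : Triple y x z ry rx rz :=
    ⟨h2, h1, h3, by rw [dist_comm, h.xy, add_comm], h.xz, h.yz⟩
  have hzx : Triple z x y rz rx ry :=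
    ⟨h3, h1, h2, by rw [dist_comm, h.xz, add_comm], h.xy, by rw [dist_comm, h.yz, add_comm]⟩
  have ex : ∑ k, (x k - o k) ^ 2 = rx ^ 2 + 2 * rx * s - 3 * s ^ 2 := sum_self h
  have ey : ∑ k, (y k - o k) ^ 2 = ry ^ 2 + 2 * ry * s - 3 * s ^ 2 := by
    have e := sum_self hyx
    have e1 : cen y x z ry⁻¹ rx⁻¹ rz⁻¹ = o := by
      ext k
      simp only [ho, cen]
      congr 1 <;> ring
    rw [e1] at e
    rw [e, hs, add_comm ry⁻¹ rx⁻¹]
  have ez : ∑ k, (z k - o k) ^ 2 = rz ^ 2 + 2 * rz * s - 3 * s ^ 2 := by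
    have e := sum_self hzx
    have e1 : cen z x y rz⁻¹ rx⁻¹ ry⁻¹ = o := by
      ext k
      simp only [ho, cen]
      congr 1 <;> ring
    rw [e1] at e
    rw [e, hs, show rz⁻¹ + rx⁻¹ + ry⁻¹ = rx⁻¹ + ry⁻¹ + rz⁻¹ by ring]
  have ec : ∀ i, ∑ k, (c i k - o k) ^ 2 = r i ^ 2 + 6 * r i * s - 3 * s ^ 2 :=
    fun i => sum_touch h (hx i) (hy i) (hz i)
  have xx : inner ℝ (vec o s x rx) (vec o s x rx) = 4 - 4 * s / rx := by
    rw [inner_vec _ _ _ _ _ _ h1.ne' h1.ne', ex, dist_self]
    field_simp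
    ring
  have yy : inner ℝ (vec o s y ry) (vec o s y ry) = 4 - 4 * s / ry := by
    rw [inner_vec _ _ _ _ _ _ h2.ne' h2.ne', ey, dist_self]
    field_simp
    ring
  have zz : inner ℝ (vec o s z rz) (vec o s z rz) = 4 - 4 * s / rz := by
    rw [inner_vec _ _ _ _ _ _ h3.ne' h3.ne', ez, dist_self]
    field_simp
    ring
  have xy : inner ℝ (vec o s x rx) (vec o s y ry) = 2 - 2 * s / rx - 2 * s / ry := by
    rw [inner_vec _ _ _ _ _ _ h1.ne' h2.ne', ex, ey, h.xy]
    field_simp
    ring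
  have xz : inner ℝ (vec o s x rx) (vec o s z rz) = 2 - 2 * s / rx - 2 * s / rz := by
    rw [inner_vec _ _ _ _ _ _ h1.ne' h3.ne', ex, ez, h.xz]
    field_simp
    ring
  have yz : inner ℝ (vec o s y ry) (vec o s z rz) = 2 - 2 * s / ry - 2 * s / rz := by
    rw [inner_vec _ _ _ _ _ _ h2.ne' h3.ne', ey, ez, h.yz]
    field_simp
    ring
  have cx : ∀ i, inner ℝ (vec o s x rx) (vec o s (c i) (r i)) = 2 - 2 * s / r i := by
    intro i
    have := (hr i).ne'
    rw [inner_vec _ _ _ _ _ _ h1.ne' (hr i).ne', ex, ec, dist_comm, hx]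
    field_simp
    ring
  have cy : ∀ i, inner ℝ (vec o s y ry) (vec o s (c i) (r i)) = 2 - 2 * s / r i := by
    intro i
    have := (hr i).ne'
    rw [inner_vec _ _ _ _ _ _ h2.ne' (hr i).ne', ey, ec, dist_comm, hy]
    field_simp
    ring
  have cz : ∀ i, inner ℝ (vec o s z rz) (vec o s (c i) (r i)) = 2 - 2 * s / r i := by
    intro i
    have := (hr i).ne'
    rw [inner_vec _ _ _ _ _ _ h3.ne' (hr i).ne', ez, ec, dist_comm, hz]
    field_simp
    ring
  have cc : ∀ i j, inner ℝ (vec o s (c i) (r i)) (vec o s (c j) (r j)) =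
      3 + (r i ^ 2 + r j ^ 2 - dist (c i) (c j) ^ 2) / (2 * r i * r j) := by
    intro i j
    have := (hr i).ne'
    have := (hr j).ne'
    rw [inner_vec _ _ _ _ _ _ (hr i).ne' (hr j).ne', ec, ec]
    field_simp
    ring
  obtain ⟨i, j, hij, hle⟩ := nine (vec o s x rx - vec o s y ry) (vec o s x rx - vec o s z rz)
    (by
      rw [inner_sub_left, inner_sub_right, inner_sub_right, real_inner_comm (vec o s x rx)
        (vec o s y ry), xx, yy, xy]
      ring)
    (by
      rw [inner_sub_left, inner_sub_right, inner_sub_right, real_inner_comm (vec o s x rx)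
        (vec o s z rz), xx, zz, xz]
      ring)
    (by
      rw [inner_sub_left, inner_sub_right, inner_sub_right, real_inner_comm (vec o s x rx)
        (vec o s y ry), xx, xz, xy, yz]
      ring)
    (fun i => vec o s (c i) (r i))
    (by
      intro i
      have := (hr i).ne'
      change inner ℝ (vec o s (c i) (r i)) (vec o s (c i) (r i)) = (4 : ℝ)
      rw [cc, dist_self]
      field_simp
      ring)
    (by
      intro i
      rw [inner_sub_left, cx, cy]
      ring)
    (by
      intro i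
      rw [inner_sub_left, cx, cz]
      ring)
  have hlt := hd i j hij
  have hi := hr i
  have hj := hr j
  rw [cc] at hle
  have : (r i ^ 2 + r j ^ 2 - dist (c i) (c j) ^ 2) / (2 * r i * r j) < -1 := by
    rw [div_lt_iff₀ (by positivity)]
    nlinarith
  linarith


/-! ### Balls and distances -/

section balls

variable {V : Type} {E : Type} [NormedAddCommGroup E] [NormedSpace ℝ E]

lemma dist_of_adj {G : SimpleGraph V} {c : V → E} {r : V → ℝ} (h : IsBallPacking G c r) {u v : V}
    (huv : G.Adj u v) : dist (c u) (c v) = r u + r v := by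
  have h1 := h.disjoint u v huv.ne
  rw [interior_closedBall _ (h.pos u).ne', interior_closedBall _ (h.pos v).ne',
    disjoint_ball_ball_iff (h.pos u) (h.pos v)] at h1
  have h2 := (h.tangent u v huv.ne).1 huv
  rw [← Set.not_disjoint_iff_nonempty_inter,
    disjoint_closedBall_closedBall_iff (h.pos u).le (h.pos v).le, not_lt] at h2
  exact le_antisymm h2 h1

lemma dist_of_not_adj {G : SimpleGraph V} {c : V → E} {r : V → ℝ} (h : IsBallPacking G c r)
    {u v : V} (hne : u ≠ v) (huv : ¬ G.Adj u v) : r u + r v < dist (c u) (c v) := by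
  have h2 := mt (h.tangent u v hne).2 huv
  rw [← Set.not_disjoint_iff_nonempty_inter,
    disjoint_closedBall_closedBall_iff (h.pos u).le (h.pos v).le, not_not] at h2
  exact h2

lemma packing_of_dist {G : SimpleGraph V} {c : V → E} {r : V → ℝ} (hr : ∀ v, 0 < r v)
    (h1 : ∀ u v, G.Adj u v → dist (c u) (c v) = r u + r v)
    (h2 : ∀ u v, u ≠ v → ¬ G.Adj u v → r u + r v < dist (c u) (c v)) : IsBallPacking G c r where
  pos := hr
  disjoint u v hne := by
    rw [interior_closedBall _ (hr u).ne', interior_closedBall _ (hr v).ne',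
      disjoint_ball_ball_iff (hr u) (hr v)]
    by_cases h : G.Adj u v
    · exact (h1 u v h).ge
    · exact (h2 u v hne h).le
  tangent u v hne := by
    rw [← Set.not_disjoint_iff_nonempty_inter,
      disjoint_closedBall_closedBall_iff (hr u).le (hr v).le, not_lt]
    refine ⟨fun h => (h1 u v h).le, fun h => ?_⟩
    by_contra hn
    exact absurd h (not_le.2 (h2 u v hne hn))

end balls

/-! ### The example -/

/-- The join of the edge `01` with the ten independent vertices `2, …, 11`. -/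
def G : SimpleGraph (Fin 12) := SimpleGraph.fromRel (fun i _ => (i : ℕ) < 2)

/-- The height function. -/
def f : Fin 12 → ℤ := fun i => if i = 2 then 0 else 1

lemma G_adj {i j : Fin 12} : G.Adj i j ↔ i ≠ j ∧ ((i : ℕ) < 2 ∨ (j : ℕ) < 2) := by
  simp [G, SimpleGraph.fromRel_adj]

lemma f_lt {u v : Fin 12} : f u < f v ↔ u = 2 ∧ v ≠ 2 := by
  unfold f
  by_cases h1 : u = 2 <;> by_cases h2 : v = 2 <;> simp [h1, h2]

/-- The ordinate of the centre of the disc `i`. -/
noncomputable def tt (i : Fin 12) : ℝ :=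
  2 * (3 * ((i : ℕ) : ℝ) - 3) / ((3 * ((i : ℕ) : ℝ) - 3) ^ 2 - 1)

/-- The radius of the disc `i`. -/
noncomputable def rr (i : Fin 12) : ℝ := 2 / ((3 * ((i : ℕ) : ℝ) - 3) ^ 2 - 1)

/-- The centres of the discs. -/
noncomputable def ctr (i : Fin 12) : E2 :=
  if i = 0 then !₂[-1, 0] else if i = 1 then !₂[1, 0] else !₂[0, tt i]

/-- The radii of the discs. -/
noncomputable def rad (i : Fin 12) : ℝ := if (i : ℕ) < 2 then 1 else rr i

lemma w_ge {i : Fin 12} (hi : 2 ≤ (i : ℕ)) : (3 : ℝ) ≤ 3 * ((i : ℕ) : ℝ) - 3 := by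
  have : (2 : ℝ) ≤ ((i : ℕ) : ℝ) := by exact_mod_cast hi
  linarith

lemma tt_pos {i : Fin 12} (hi : 2 ≤ (i : ℕ)) : 0 < tt i := by
  have := w_ge hi
  unfold tt
  apply div_pos (by linarith)
  nlinarith

lemma rr_pos {i : Fin 12} (hi : 2 ≤ (i : ℕ)) : 0 < rr i := by
  have := w_ge hi
  unfold rr
  apply div_pos (by linarith)
  nlinarith

lemma tt_rr {i : Fin 12} (hi : 2 ≤ (i : ℕ)) : 1 + tt i ^ 2 = (1 + rr i) ^ 2 := by
  have := w_ge hi
  have h : ((3 * ((i : ℕ) : ℝ) - 3) ^ 2 - 1) ≠ 0 := by nlinarith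
  unfold tt rr
  generalize 3 * ((i : ℕ) : ℝ) - 3 = a at h
  generalize hD : a ^ 2 - 1 = D at h
  have e : a ^ 2 = D + 1 := by linarith
  field_simp
  linear_combination 4 * e

lemma tt_gap {i j : Fin 12} (hi : 2 ≤ (i : ℕ)) (hij : (i : ℕ) < j) :
    rr i + rr j < tt i - tt j := by
  have h1 := w_ge hi
  have h2 := w_ge (hi.trans hij.le)
  have h3 : ((i : ℕ) : ℝ) + 1 ≤ ((j : ℕ) : ℝ) := by exact_mod_cast hij
  set a : ℝ := 3 * ((i : ℕ) : ℝ) - 3 with ha
  set b : ℝ := 3 * ((j : ℕ) : ℝ) - 3 with hb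
  have hab : a + 3 ≤ b := by linarith
  have ea : tt i - rr i = 2 / (a + 1) := by
    have : a ^ 2 - 1 ≠ 0 := by nlinarith
    have : a + 1 ≠ 0 := by linarith
    rw [tt, rr, ← ha]
    rw [← sub_div, div_eq_div_iff (by assumption) (by assumption)]
    ring
  have eb : tt j + rr j = 2 / (b - 1) := by
    have : b ^ 2 - 1 ≠ 0 := by nlinarith
    have : b - 1 ≠ 0 := by linarith
    rw [tt, rr, ← hb]
    rw [← add_div, div_eq_div_iff (by assumption) (by assumption)]
    ring
  have : 2 / (b - 1) < 2 / (a + 1) := by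
    apply div_lt_div_of_pos_left <;> linarith
  linarith

lemma tt_inj {i j : Fin 12} (hi : 2 ≤ (i : ℕ)) (hj : 2 ≤ (j : ℕ)) (h : tt i = tt j) : i = j := by
  rcases lt_trichotomy (i : ℕ) j with hlt | heq | hlt
  · have := tt_gap hi hlt
    have := rr_pos hi
    have := rr_pos hj
    linarith
  · exact Fin.ext heq
  · have := tt_gap hj hlt
    have := rr_pos hi
    have := rr_pos hj
    linarith

lemma ctr_ge {i : Fin 12} (hi : 2 ≤ (i : ℕ)) : ctr i = !₂[0, tt i] := by
  have h0 : i ≠ 0 := by rintro rfl; simp at hi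
  have h1 : i ≠ 1 := by rintro rfl; simp at hi
  simp [ctr, h0, h1]

lemma ctr_zero : ctr 0 = !₂[-1, 0] := by simp [ctr]

lemma ctr_one : ctr 1 = !₂[1, 0] := by simp [ctr]

lemma rad_ge {i : Fin 12} (hi : 2 ≤ (i : ℕ)) : rad i = rr i := by
  simp [rad, not_lt.2 hi]

lemma rad_zero : rad 0 = 1 := by simp [rad]

lemma rad_one : rad 1 = 1 := by simp [rad]

lemma cases3 (i : Fin 12) : i = 0 ∨ i = 1 ∨ 2 ≤ (i : ℕ) := by
  rcases i with ⟨i, hi⟩
  rcases i with _ | _ | i
  · left; rfl
  · right; left; rfl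
  · right; right; simp

lemma dist_two (a b a' b' : ℝ) : dist (!₂[a, b] : E2) !₂[a', b'] = √((a - a') ^ 2 + (b - b') ^ 2) := by
  rw [EuclideanSpace.dist_eq]
  simp [Fin.sum_univ_two, Real.dist_eq, sq_abs]

lemma isPacking : IsBallPacking G ctr rad := by
  have hpos : ∀ v, 0 < rad v := by
    intro v
    rcases cases3 v with rfl | rfl | h
    · rw [rad_zero]; norm_num
    · rw [rad_one]; norm_num
    · rw [rad_ge h]; exact rr_pos h
  have d01 : dist (ctr 0) (ctr 1) = rad 0 + rad 1 := by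
    rw [ctr_zero, ctr_one, rad_zero, rad_one, dist_two, Real.sqrt_eq_iff_mul_self_eq] <;> norm_num
  have d0 : ∀ i : Fin 12, 2 ≤ (i : ℕ) → dist (ctr 0) (ctr i) = rad 0 + rad i := by
    intro i hi
    have := rr_pos hi
    rw [ctr_zero, ctr_ge hi, rad_zero, rad_ge hi, dist_two, ← Real.sqrt_sq (by linarith : 0 ≤ 1 + rr i),
      ← tt_rr hi]
    congr 1
    ring
  have d1 : ∀ i : Fin 12, 2 ≤ (i : ℕ) → dist (ctr 1) (ctr i) = rad 1 + rad i := by
    intro i hi
    have := rr_pos hi
    rw [ctr_one, ctr_ge hi, rad_one, rad_ge hi, dist_two, ← Real.sqrt_sq (by linarith : 0 ≤ 1 + rr i),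
      ← tt_rr hi]
    congr 1
    ring
  apply packing_of_dist hpos
  · intro u v huv
    rw [G_adj] at huv
    obtain ⟨hne, h⟩ := huv
    rcases cases3 u with rfl | rfl | hu <;> rcases cases3 v with rfl | rfl | hv
    · exact absurd rfl hne
    · exact d01
    · exact d0 v hv
    · rw [dist_comm, add_comm]; exact d01
    · exact absurd rfl hne
    · exact d1 v hv
    · rw [dist_comm, add_comm]; exact d0 u hu
    · rw [dist_comm, add_comm]; exact d1 u hu
    · omega
  · intro u v hne h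
    have h' : 2 ≤ (u : ℕ) ∧ 2 ≤ (v : ℕ) := by
      by_contra hc
      apply h
      rw [G_adj]
      refine ⟨hne, ?_⟩
      omega
    obtain ⟨hu, hv⟩ := h'
    rw [ctr_ge hu, ctr_ge hv, rad_ge hu, rad_ge hv, dist_two, sub_self, zero_pow (by norm_num),
      zero_add, Real.sqrt_sq_eq_abs]
    rcases lt_trichotomy (u : ℕ) v with hlt | heq | hlt
    · exact (tt_gap hu hlt).trans_le (le_abs_self _)
    · exact absurd (Fin.ext heq) hne
    · have := tt_gap hv hlt
      rw [abs_sub_comm]
      have h2 := le_abs_self (tt v - tt u)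
      linarith

/-- Points on the segments of the drawing. -/
lemma desc {u v : Fin 12} (h : G.Adj u v) {q : E2} (hq : q ∈ segment ℝ (ctr u) (ctr v)) :
    (s(u, v) = s(0, 1) ∧ q 1 = 0) ∨
    (∃ i : Fin 12, 2 ≤ (i : ℕ) ∧ s(u, v) = s(0, i) ∧
      ∃ a : ℝ, 0 ≤ a ∧ a ≤ 1 ∧ q = !₂[-1 + a, a * tt i]) ∨
    (∃ i : Fin 12, 2 ≤ (i : ℕ) ∧ s(u, v) = s(1, i) ∧
      ∃ a : ℝ, 0 ≤ a ∧ a ≤ 1 ∧ q = !₂[1 - a, a * tt i]) := by
  have d01 : ∀ q : E2, q ∈ segment ℝ (ctr 0) (ctr 1) → q 1 = 0 := by
    rintro q ⟨a, b, ha, hb, hab, rfl⟩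
    simp [ctr_zero, ctr_one]
  have d0 : ∀ i : Fin 12, 2 ≤ (i : ℕ) → ∀ q : E2, q ∈ segment ℝ (ctr 0) (ctr i) →
      ∃ a : ℝ, 0 ≤ a ∧ a ≤ 1 ∧ q = !₂[-1 + a, a * tt i] := by
    rintro i hi q ⟨a, b, ha, hb, hab, rfl⟩
    refine ⟨b, hb, by linarith, ?_⟩
    rw [ctr_zero, ctr_ge hi]
    ext k
    fin_cases k
    · simp; linarith
    · simp
  have d1 : ∀ i : Fin 12, 2 ≤ (i : ℕ) → ∀ q : E2, q ∈ segment ℝ (ctr 1) (ctr i) →
      ∃ a : ℝ, 0 ≤ a ∧ a ≤ 1 ∧ q = !₂[1 - a, a * tt i] := by
    rintro i hi q ⟨a, b, ha, hb, hab, rfl⟩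
    refine ⟨b, hb, by linarith, ?_⟩
    rw [ctr_one, ctr_ge hi]
    ext k
    fin_cases k
    · simp; linarith
    · simp
  rw [G_adj] at h
  obtain ⟨hne, h⟩ := h
  rcases cases3 u with rfl | rfl | hu <;> rcases cases3 v with rfl | rfl | hv
  · exact absurd rfl hne
  · exact Or.inl ⟨rfl, d01 q hq⟩
  · exact Or.inr (Or.inl ⟨v, hv, rfl, d0 v hv q hq⟩)
  · exact Or.inl ⟨Sym2.eq_swap, d01 q (by rw [segment_symm]; exact hq)⟩
  · exact absurd rfl hne
  · exact Or.inr (Or.inr ⟨v, hv, rfl, d1 v hv q hq⟩)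
  · exact Or.inr (Or.inl ⟨u, hu, Sym2.eq_swap, d0 u hu q (by rw [segment_symm]; exact hq)⟩)
  · exact Or.inr (Or.inr ⟨u, hu, Sym2.eq_swap, d1 u hu q (by rw [segment_symm]; exact hq)⟩)
  · omega

lemma coord {a b : ℝ} {q : E2} (h : q = !₂[a, b]) : q 0 = a ∧ q 1 = b := by
  subst h; simp

lemma isPlanar : IsPlanar G := by
  refine ⟨ctr, ?_, ?_, ?_⟩
  · intro i j hij
    rcases cases3 i with rfl | rfl | hi <;> rcases cases3 j with rfl | rfl | hj
    · rfl
    · rw [ctr_zero, ctr_one] at hij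
      have := (coord hij).1
      norm_num at this
    · rw [ctr_zero, ctr_ge hj] at hij
      have := (coord hij).1
      norm_num at this
    · rw [ctr_zero, ctr_one] at hij
      have := (coord hij).1
      norm_num at this
    · rfl
    · rw [ctr_one, ctr_ge hj] at hij
      have := (coord hij).1
      norm_num at this
    · rw [ctr_zero, ctr_ge hi] at hij
      have := (coord hij).1
      norm_num at this
    · rw [ctr_one, ctr_ge hi] at hij
      have := (coord hij).1
      norm_num at this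
    · rw [ctr_ge hi, ctr_ge hj] at hij
      have := (coord hij).2
      simp only [Matrix.cons_val_one, Matrix.cons_val_fin_one] at this
      exact tt_inj hi hj this
  · intro u v huv w hw
    rw [← Sym2.mem_iff]
    rcases desc huv hw with ⟨e, h⟩ | ⟨i, hi, e, a, ha, ha', h⟩ | ⟨i, hi, e, a, ha, ha', h⟩
    · rw [e, Sym2.mem_iff]
      rcases cases3 w with rfl | rfl | hw'
      · left; rfl
      · right; rfl
      · rw [ctr_ge hw'] at h
        have := tt_pos hw'
        simp at h
        linarith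
    · rw [e, Sym2.mem_iff]
      obtain ⟨h0, h1⟩ := coord h
      rcases cases3 w with rfl | rfl | hw'
      · left; rfl
      · rw [ctr_one] at h0
        simp at h0
        linarith
      · right
        rw [ctr_ge hw'] at h0 h1
        simp at h0 h1
        have : a = 1 := by linarith
        rw [this, one_mul] at h1
        exact tt_inj hw' hi h1
    · rw [e, Sym2.mem_iff]
      obtain ⟨h0, h1⟩ := coord h
      rcases cases3 w with rfl | rfl | hw'
      · rw [ctr_zero] at h0
        simp at h0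
        linarith
      · left; rfl
      · right
        rw [ctr_ge hw'] at h0 h1
        simp at h0 h1
        have : a = 1 := by linarith
        rw [this, one_mul] at h1
        exact tt_inj hw' hi h1
  · intro u v x y huv hxy hne q hq hq'
    simp only [← Sym2.mem_iff]
    rcases desc huv hq with ⟨e, h⟩ | ⟨i, hi, e, a, ha, ha', h⟩ | ⟨i, hi, e, a, ha, ha', h⟩ <;>
    rcases desc hxy hq' with ⟨e', h'⟩ | ⟨j, hj, e', b, hb, hb', h'⟩ | ⟨j, hj, e', b, hb, hb', h'⟩
    · exact absurd (e.trans e'.symm) hne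
    · have hz : b = 0 := by
        have := (coord h').2.symm.trans h
        have hp := (tt_pos hj).ne'
        exact (mul_eq_zero.1 this).resolve_right hp
      refine ⟨0, by rw [e]; simp, by rw [e']; simp, ?_⟩
      rw [h', hz, ctr_zero]; norm_num
    · have hz : b = 0 := by
        have := (coord h').2.symm.trans h
        have hp := (tt_pos hj).ne'
        exact (mul_eq_zero.1 this).resolve_right hp
      refine ⟨1, by rw [e]; simp, by rw [e']; simp, ?_⟩
      rw [h', hz, ctr_one]; norm_num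
    · have hz : a = 0 := by
        have := (coord h).2.symm.trans h'
        have hp := (tt_pos hi).ne'
        exact (mul_eq_zero.1 this).resolve_right hp
      refine ⟨0, by rw [e]; simp, by rw [e']; simp, ?_⟩
      rw [h, hz, ctr_zero]; norm_num
    · have h0 := (coord h).1.symm.trans (coord h').1
      have h1 := (coord h).2.symm.trans (coord h').2
      have hab : a = b := by linarith
      subst hab
      have hij : i ≠ j := by
        rintro rfl
        exact hne (e.trans e'.symm)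
      have hz : a = 0 := by
        by_contra hz
        exact hij (tt_inj hi hj (mul_left_cancel₀ hz h1))
      refine ⟨0, by rw [e]; simp, by rw [e']; simp, ?_⟩
      rw [h, hz, ctr_zero]; norm_num
    · have h0 := (coord h).1.symm.trans (coord h').1
      have h1 := (coord h).2.symm.trans (coord h').2
      have ea : a = 1 := by linarith
      have eb : b = 1 := by linarith
      rw [ea, eb, one_mul, one_mul] at h1
      have hij := tt_inj hi hj h1
      subst hij
      refine ⟨i, by rw [e]; simp, by rw [e']; simp, ?_⟩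
      rw [h, ea, ctr_ge hi]; norm_num
    · have hz : a = 0 := by
        have := (coord h).2.symm.trans h'
        have hp := (tt_pos hi).ne'
        exact (mul_eq_zero.1 this).resolve_right hp
      refine ⟨1, by rw [e]; simp, by rw [e']; simp, ?_⟩
      rw [h, hz, ctr_one]; norm_num
    · have h0 := (coord h).1.symm.trans (coord h').1
      have h1 := (coord h).2.symm.trans (coord h').2
      have ea : a = 1 := by linarith
      have eb : b = 1 := by linarith
      rw [ea, eb, one_mul, one_mul] at h1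
      have hij := tt_inj hi hj h1
      subst hij
      refine ⟨i, by rw [e]; simp, by rw [e']; simp, ?_⟩
      rw [h, ea, ctr_ge hi]; norm_num
    · have h0 := (coord h).1.symm.trans (coord h').1
      have h1 := (coord h).2.symm.trans (coord h').2
      have hab : a = b := by linarith
      subst hab
      have hij : i ≠ j := by
        rintro rfl
        exact hne (e.trans e'.symm)
      have hz : a = 0 := by
        by_contra hz
        exact hij (tt_inj hi hj (mul_left_cancel₀ hz h1))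
      refine ⟨1, by rw [e]; simp, by rw [e']; simp, ?_⟩
      rw [h, hz, ctr_one]; norm_num

lemma isHeight : IsHeight G f := by
  intro u v _
  unfold f
  by_cases h1 : u = 2 <;> by_cases h2 : v = 2 <;> simp [h1, h2]

lemma choice_exists (c : Fin 12 → E2) : IsNearestChoice f c (fun _ => 2) := by
  rintro v ⟨u, hu⟩
  rw [f_lt] at hu
  refine ⟨f_lt.2 ⟨rfl, hu.2⟩, ?_⟩
  intro u' hu'
  rw [(f_lt.1 hu').1]

lemma choice_eq {c : Fin 12 → E2} {g : Fin 12 → Fin 12} (h : IsNearestChoice f c g) {v : Fin 12}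
    (hv : v ≠ 2) : g v = 2 :=
  (f_lt.1 (h v ⟨2, f_lt.2 ⟨rfl, hv⟩⟩).1).1

lemma not_packable {c : Fin 12 → E2} {g : Fin 12 → Fin 12} (h : IsNearestChoice f c g) :
    ¬ SpherePackable (augment G f g) := by
  rintro ⟨C, R, hp⟩
  have hG : ∀ {u v : Fin 12}, G.Adj u v → (augment G f g).Adj u v := fun huv => Or.inl huv
  have h2 : ∀ {u : Fin 12}, u ≠ 2 → (augment G f g).Adj u 2 := by
    intro u hu
    right
    rw [SimpleGraph.fromRel_adj]
    exact ⟨hu, Or.inl ⟨⟨2, f_lt.2 ⟨rfl, hu⟩⟩, (choice_eq h hu).symm⟩⟩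
  have hn : ∀ {u v : Fin 12}, 3 ≤ (u : ℕ) → 3 ≤ (v : ℕ) → ¬ (augment G f g).Adj u v := by
    intro u v hu hv huv
    rcases huv with huv | huv
    · rw [G_adj] at huv
      omega
    · rw [SimpleGraph.fromRel_adj] at huv
      rcases huv.2 with ⟨⟨w, hw⟩, e⟩ | ⟨⟨w, hw⟩, e⟩
      · rw [choice_eq h (f_lt.1 hw).2] at e
        subst e
        simp at hv
      · rw [choice_eq h (f_lt.1 hw).2] at e
        subst e
        simp at hu
  let e : Fin 9 → Fin 12 := fun i => ⟨(i : ℕ) + 3, by omega⟩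
  have he : ∀ i, 3 ≤ ((e i : Fin 12) : ℕ) := fun i => by simp [e]
  have he' : ∀ i, (e i) ≠ 0 ∧ (e i) ≠ 1 ∧ (e i) ≠ 2 := by
    intro i
    have := he i
    refine ⟨?_, ?_, ?_⟩ <;> intro hh <;> rw [hh] at this <;> simp at this
  have hT : Triple (C 0) (C 1) (C 2) (R 0) (R 1) (R 2) :=
    ⟨hp.pos 0, hp.pos 1, hp.pos 2, dist_of_adj hp (hG (G_adj.2 (by decide))),
      dist_of_adj hp (hG (G_adj.2 (by decide))), dist_of_adj hp (hG (G_adj.2 (by decide)))⟩
  refine no_nine hT (fun i => C (e i)) (fun i => R (e i)) (fun i => hp.pos _) ?_ ?_ ?_ ?_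
  · intro i
    exact dist_of_adj hp (hG (G_adj.2 ⟨(he' i).1, by simp⟩))
  · intro i
    exact dist_of_adj hp (hG (G_adj.2 ⟨(he' i).2.1, by simp⟩))
  · intro i
    exact dist_of_adj hp (h2 (he' i).2.2)
  · intro i j hij
    refine dist_of_not_adj hp ?_ (hn (he i) (he j))
    intro hh
    apply hij
    simpa [e, Fin.ext_iff] using hh

/-- Main result: there are a planar graph `G` on twelve vertices and a height function `f` on `G`
such that `G` has a circle packing in the plane and, for every circle packing of `G`, nearest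
vertices can be chosen and whatever the choice, the augmented graph is not sphere packable. -/
theorem result : ∃ (G : SimpleGraph (Fin 12)) (f : Fin 12 → ℤ),
    IsPlanar G ∧ IsHeight G f ∧ (∃ (c : Fin 12 → E2) (r : Fin 12 → ℝ), IsBallPacking G c r) ∧
    ∀ (c : Fin 12 → E2) (r : Fin 12 → ℝ), IsBallPacking G c r →
      (∃ g, IsNearestChoice f c g) ∧
        ∀ g, IsNearestChoice f c g → ¬ SpherePackable (augment G f g) :=
  ⟨G, f, isPlanar, isHeight, ⟨ctr, rad, isPacking⟩, fun c _ _ =>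
    ⟨⟨_, choice_exists c⟩, fun _ h => not_packable h⟩⟩

end Pool.Agent.Results.MP_ffcab7_co.NotPackable
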